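import Pool.Agent.H94.ShafFinal

/-!
# The Shafarevich dimension of the moduli space of endomorphisms of the projective line

This file answers Q2 of problem MP_a47518_nt: for every `d ≥ 2` the Shafarevich dimension of
`M_d^1 = End_d^1 / PGL_2` equals `2d - 2`.

The definitions (in `Pool.Agent.H94.ShafDefs`) are made for every `N`:

* `IsMorphismTuple d F`: `F_0, ..., F_N` are forms of degree `d` in `N + 1` variables over a field,
  without common zero over an algebraic closure except the origin;
* `Moduli N d k`: these tuples up to scaling and conjugation, with the quotient of the Zariski
  topology (closed sets are given by polynomial equations in the coefficients);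
* `goodClasses N d K S`: the classes, over an algebraic closure of the number field `K`, of the
  tuples over `K` such that for every finite place `v` outside `S` some conjugate over `K` has
  good reduction at `v`;
* `shafDim N d`: the supremum over `K` and `S` of the Krull dimension of the closure of
  `goodClasses N d K S`.

The proof shows that `M_d^1` has dimension `2d - 2` and that for every number field `K` the
classes with good reduction away from `2` are already Zariski dense: one uses the pairs of forms
over `Z` built by continued fractions with partial quotients `2^n x + c`, whose resultants are
powers of `2` up to sign.
-/

namespace Pool.Agent.Results.MP_a47518_nt.ShafDimP1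

open Pool.Agent.H94.Shaf

/-- For every `d ≥ 2` the Shafarevich dimension of `M_d^1` is `2d - 2`. -/
theorem result (d : ℕ) (hd : 2 ≤ d) : shafDim 1 d = ((2 * d - 2 : ℕ) : WithBot ℕ∞) :=
  shafDim_one hd

end Pool.Agent.Results.MP_a47518_nt.ShafDimP1
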